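import Pool.Agent.Helper62.PLK.Prv
import Pool.Agent.Helper3.LF.PhiRem

/-! The literal form is bounded at the foot and at the velocity of the line; the row of `z`; the volume of the form. -/

set_option autoImplicit false

namespace Pool.Agent.Helper62.PLK

open Finset Filter Topology Matrix Pool.Agent.Helper69.RK Pool.Agent.Helper31.EC
open Pool.Agent.Helper31.EC.Sp Pool.Agent.Helper40.EL Pool.Agent.Helper3.LF Pool.Agent.Helper89.LX
open Pool.Agent.Helper32.PLK (PV ev zz rz sg lamR cf vl CMP)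
open Pool.Agent.Helper66.MT (cs_form)
open Pool.Agent.Helper14.MC (mvar vv_mvar)
open Pool.Agent.Helper48.NS (GG Jf Wd)
open Pool.Agent.Helper95.LF (PdM)

noncomputable section

/-- the form at every tame point of the line -/
theorem phi_all {S : Sp} {s : Sys S 2} {W : Sp} {p : Pj W S}
    {V : ∀ k, (W.F k).Ω → Matrix (Mon (2 + 1) 1) (Mon (2 + 1) 1) ℝ} {K : ℕ → ℝ} {C : ℝ} (h : PV s W p V K C)
    (L : ℕ → ℝ) (hL : W.Sub L) : ∃ K' : ℕ → ℝ, W.Sub K' ∧ Typ (fun k w => ∀ u, |u - s.t.v k (p.π k w) 0| ≤ L k →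
      phi (W.dl 1 k) (V k w) (pl (s.a.v k (p.π k w)) (s.x.v k (p.π k w)) u) ≤ K' k) := by
  classical
  set a := p.vv s.a with ha
  set x := p.vv s.x with hx
  set t := p.vv s.t with ht
  set X : ∀ k, (W.F k).Ω → Matrix (Mon (2 + 1) 1) (Mon (2 + 1) 1) ℝ × ((Fin 2 → ℤ) × (Fin 2 → ℤ)) :=
    fun k w => (V k w, (a.cellv 1 k w, x.cellv 1 k w)) with hX
  have hXb : Bdd X := h.bd.pair ((a.bdd 1).pair (x.bdd 1))
  have hXi : io X = io V ⊔ (a.dg 1 ⊔ x.dg 1) := by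
    have e1 : io X = io V ⊔ io (fun k w => (a.cellv 1 k w, x.cellv 1 k w)) := io_pair h.bd ((a.bdd 1).pair (x.bdd 1))
    rw [e1, io_pair (a.bdd 1) (x.bdd 1)]
    rfl
  obtain ⟨Kt, hKt, hKt'⟩ := t.bd
  have hent : (1 : ℝ) - 0 ≤ ul (W.rt (fun k => Setoid.ker (t.cellv 1 k)) (fun k => Setoid.ker (X k))) := by
    rw [← Sp.h_io (t.bdd 1) hXb, hXi, sub_zero]
    have e1 : io (t.cellv 1) = p.map s.T := by
      show t.dg 1 = _
      rw [ht, ← p.map_dg]
      rfl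
    have e2 : io V ⊔ (a.dg 1 ⊔ x.dg 1) ≤ p.map (s.xi 1) := by
      refine sup_le h.leL ?_
      rw [ha, hx, ← p.map_dg, ← p.map_dg, ← p.map_sup]
      exact le_rfl
    rw [e1]
    refine le_trans (le_of_eq ?_) (h_anti e2)
    rw [p.h_map, s.hT_xi]
  have hpd : ∀ᶠ k in UF, ∀ w, (W.F k).μ w ≠ 0 → PdM (V k w) := by
    filter_upwards [h.cpd] with k hk w hw
    exact (hk w hw).pdM
  obtain ⟨K', hK', hT'⟩ := phi_rem a x t 0 1 le_rfl one_pos (fun k => Setoid.ker (X k)) V hpd (fun k => 1 + 2 * Kt k)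
    ((W.Sub_const zero_le_one).add ((W.Sub_const (by norm_num)).mul hKt))
    (by
      filter_upwards [hKt', hKt.1] with k b1 b2 w w' hw hw' hB hZ
      have hB1 : X k w' = X k w := hB
      have h1 : V k w' = V k w := congrArg Prod.fst hB1
      have h2 : a.cellv 1 k w' = a.cellv 1 k w := congrArg (fun q => q.2.1) hB1
      have h3 : x.cellv 1 k w' = x.cellv 1 k w := congrArg (fun q => q.2.2) hB1
      have hδ := W.dl_pos 1 k
      refine ⟨h1, fun i => (a.cellv_close 1 k _ _ h2 i).trans ?_, fun i => (x.cellv_close 1 k _ _ h3 i).trans ?_, ?_⟩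
      · nlinarith
      · nlinarith
      · rw [W.dl_zero]
        have c1 := b1 w hw 0
        have c2 := b1 w' hw' 0
        have c3 := abs_sub (t.v k w' 0) (t.v k w 0)
        linarith)
    hent 0 le_rfl L hL
  refine ⟨fun k => K' k * K k, Sub.mul hK' h.sub, (Typ.and hT' h.typ).mono ?_⟩
  filter_upwards [hK'.1] with k hk w hw hE u hu
  have h1 := hE.1 u (by
    rw [sub_zero, W.dl_zero, mul_one]
    exact hu)
  have e1 : (2 : ℝ) ^ (((2 * 1 : ℕ) : ℝ) * 0 * (W.F k).n) = 1 := by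
    rw [mul_zero, zero_mul, Real.rpow_zero]
  rw [e1, mul_one] at h1
  exact h1.trans (mul_le_mul_of_nonneg_left hE.2 hk)

/-- THE FORM IS BOUNDED AT THE FOOT AND AT THE VELOCITY OF THE LINE -/
theorem line_typ {S : Sp} {s : Sys S 2} {W : Sp} {p : Pj W S}
    {V : ∀ k, (W.F k).Ω → Matrix (Mon (2 + 1) 1) (Mon (2 + 1) 1) ℝ} {K : ℕ → ℝ} {C : ℝ} (h : PV s W p V K C) :
    ∃ K' : ℕ → ℝ, W.Sub K' ∧ Typ (fun k w =>
      qf (V k w) (vv (pl (s.a.v k (p.π k w)) (s.x.v k (p.π k w)) 0)) ≤ K' k ∧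
      qf (V k w) (Helper59.GR.Uv 2 (s.x.v k (p.π k w))) ≤ K' k) := by
  obtain ⟨Kt, hKt, hKt'⟩ := s.t.bd
  have hKtW : W.Sub Kt := by
    refine ⟨hKt.1, ?_⟩
    have := hKt.2
    simp only [← p.hn] at this
    exact this
  obtain ⟨K', hK', hT'⟩ := phi_all h (fun k => Kt k + 1) (hKtW.add (W.Sub_const zero_le_one))
  refine ⟨fun k => 4 * K' k, (W.Sub_const (by norm_num)).mul hK', hT'.mono ?_⟩
  filter_upwards [h.cpd, hKt', hKt.1, hK'.1] with k hk b1 b2 b3 w hw hE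
  obtain ⟨a1, a2, _⟩ := hk w hw
  have hp : ∀ x, 0 ≤ x ⬝ᵥ (V k w *ᵥ x) := fun x => (dot_self_nonneg x).trans (a2 x)
  have c1 := b1 _ (p.supp k w hw) 0
  have h0 := hE 0 (by
    rw [zero_sub, abs_neg]
    linarith)
  have h1 := hE 1 (by
    have := abs_sub 1 (s.t.v k (p.π k w) 0)
    rw [abs_one] at this
    linarith)
  have h2 := Helper59.GR.qf_Uv hp (s.a.v k (p.π k w)) (s.x.v k (p.π k w)) 0 1 (W.dl 1 k) (K' k) h0 h1
  have h3 := Helper59.GR.qf_le_phi (W.dl 1 k) hp (pl (s.a.v k (p.π k w)) (s.x.v k (p.π k w)) 0)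
  rw [sub_zero, one_pow, one_mul] at h2
  refine ⟨?_, h2⟩
  linarith

/-! ### the row of `z` -/

variable {A : Matrix (Mon (2 + 1) 1) (Mon (2 + 1) 1) ℝ}

/-- coefficients of the row of `z`: `z = b0 + b1 t + al R` -/
def b0 (A : Matrix (Mon (2 + 1) 1) (Mon (2 + 1) 1) ℝ) : ℝ := -(ev 2 ⬝ᵥ (A *ᵥ vv 0)) / zz A

def b1 (A : Matrix (Mon (2 + 1) 1) (Mon (2 + 1) 1) ℝ) : ℝ := -(ev 2 ⬝ᵥ (A *ᵥ ev 0)) / zz A

def al (A : Matrix (Mon (2 + 1) 1) (Mon (2 + 1) 1) ℝ) : ℝ := -rz A / zz A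

theorem zrow_eq (hs : A.IsSymm) (h1 : ∀ x, x ⬝ᵥ x ≤ qf A x) (y : Fin (2 + 1) → ℝ) :
    ev 2 ⬝ᵥ (A *ᵥ vv y) = zz A * (y 2 - b0 A - b1 A * y 0 - al A * y 1) := by
  have hz := one_le_zz h1
  have e1 : (vv y : Mon (2 + 1) 1 → ℝ) = vv 0 + (y 0 • ev 0 + (y 1 • ev 1 + y 2 • ev 2)) := by
    have h2 := Helper59.GR.vv_one (N := 2 + 1) 0 y
    rw [h2, Fin.sum_univ_three]
    simp only [Pi.zero_apply, sub_zero]
    rw [add_assoc]
    rfl
  have e2 : ev 2 ⬝ᵥ (A *ᵥ ev 1) = rz A := bil_symm hs _ _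
  have e3 : ev 2 ⬝ᵥ (A *ᵥ ev 2) = zz A := rfl
  rw [e1, Matrix.mulVec_add, Matrix.mulVec_add, Matrix.mulVec_add, Matrix.mulVec_smul, Matrix.mulVec_smul,
    Matrix.mulVec_smul, dotProduct_add, dotProduct_add, dotProduct_add, dotProduct_smul, dotProduct_smul,
    dotProduct_smul, e2, e3]
  unfold b0 b1 al
  simp only [smul_eq_mul]
  field_simp
  ring

/-- the rows along velocities -/
theorem Uv_eq (x : Fin 2 → ℝ) : (Helper59.GR.Uv 2 x : Mon (2 + 1) 1 → ℝ) = ev 0 + (x 0 • ev 1 + x 1 • ev 2) := by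
  unfold Helper59.GR.Uv
  congr 1
  funext b
  rw [Matrix.mulVec, dotProduct, Fin.sum_univ_two, Pi.add_apply, Pi.smul_apply, Pi.smul_apply, smul_eq_mul,
    smul_eq_mul, mul_comm (x 0), mul_comm (x 1)]
  rfl

theorem zrow_Uv (hs : A.IsSymm) (h1 : ∀ x, x ⬝ᵥ x ≤ qf A x) (x : Fin 2 → ℝ) :
    ev 2 ⬝ᵥ (A *ᵥ Helper59.GR.Uv 2 x) = zz A * (x 1 - b1 A - al A * x 0) := by
  have hz := one_le_zz h1
  have e2 : ev 2 ⬝ᵥ (A *ᵥ ev 1) = rz A := bil_symm hs _ _
  have e3 : ev 2 ⬝ᵥ (A *ᵥ ev 2) = zz A := rfl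
  rw [Uv_eq, Matrix.mulVec_add, Matrix.mulVec_add, Matrix.mulVec_smul, Matrix.mulVec_smul, dotProduct_add,
    dotProduct_add, dotProduct_smul, dotProduct_smul, e2, e3]
  unfold b1 al
  simp only [smul_eq_mul]
  field_simp
  ring

theorem row_Uv (hs : A.IsSymm) (h1 : ∀ x, x ⬝ᵥ x ≤ qf A x) (x : Fin 2 → ℝ) :
    eR A ⬝ᵥ (A *ᵥ Helper59.GR.Uv 2 x) = sg A * (x 0 - r1 A) := by
  have hg := one_le_sg hs h1
  rw [Uv_eq, Matrix.mulVec_add, Matrix.mulVec_add, Matrix.mulVec_smul, Matrix.mulVec_smul, dotProduct_add,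
    dotProduct_add, dotProduct_smul, dotProduct_smul, eR_ev2 h1, eR_ev1 hs]
  unfold r1
  simp only [smul_eq_mul]
  field_simp
  ring

/-- Cauchy-Schwarz for a row `v` -/
theorem row_cs (hs : A.IsSymm) (h1 : ∀ x, x ⬝ᵥ x ≤ qf A x) (v y : Mon (2 + 1) 1 → ℝ) (g u : ℝ) (hg : 0 < g)
    (hv : qf A v = g) (hy : v ⬝ᵥ (A *ᵥ y) = g * u) : g * u ^ 2 ≤ qf A y := by
  have hp : Psd A := ⟨hs, fun x => (dot_self_nonneg x).trans (h1 x)⟩
  have h2 := cs_form hp v y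
  rw [hv, hy] at h2
  have h3 : g * (g * u ^ 2) ≤ g * qf A y := by
    calc _ = (g * u) ^ 2 := by ring
      _ ≤ _ := h2
  exact le_of_mul_le_mul_left h3 hg

theorem zrow_le (hs : A.IsSymm) (h1 : ∀ x, x ⬝ᵥ x ≤ qf A x) (y : Fin (2 + 1) → ℝ) :
    zz A * (y 2 - b0 A - b1 A * y 0 - al A * y 1) ^ 2 ≤ qf A (vv y) := by
  have hz := one_le_zz h1
  exact row_cs hs h1 (ev 2) (vv y) (zz A) _ (by linarith) rfl (zrow_eq hs h1 y)

theorem zrow_Uv_le (hs : A.IsSymm) (h1 : ∀ x, x ⬝ᵥ x ≤ qf A x) (x : Fin 2 → ℝ) :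
    zz A * (x 1 - b1 A - al A * x 0) ^ 2 ≤ qf A (Helper59.GR.Uv 2 x) := by
  have hz := one_le_zz h1
  exact row_cs hs h1 (ev 2) _ (zz A) _ (by linarith) rfl (zrow_Uv hs h1 x)

theorem row_Uv_le (hs : A.IsSymm) (h1 : ∀ x, x ⬝ᵥ x ≤ qf A x) (x : Fin 2 → ℝ) :
    sg A * (x 0 - r1 A) ^ 2 ≤ qf A (Helper59.GR.Uv 2 x) := by
  have hg := one_le_sg hs h1
  exact row_cs hs h1 (eR A) _ (sg A) _ (by linarith) (qf_eR hs h1) (row_Uv hs h1 x)

/-- the tilt -/
theorem al_le (hs : A.IsSymm) (h1 : ∀ x, x ⬝ᵥ x ≤ qf A x) : zz A * al A ^ 2 ≤ qf A (ev 1) := by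
  have hz := one_le_zz h1
  have e2 : ev 2 ⬝ᵥ (A *ᵥ ev 1) = zz A * (-al A) := by
    rw [bil_symm hs]
    unfold al
    show rz A = _
    field_simp
  have := row_cs hs h1 (ev 2) (ev 1) (zz A) (-al A) (by linarith) rfl e2
  rwa [neg_sq] at this

theorem b1_le (hs : A.IsSymm) (h1 : ∀ x, x ⬝ᵥ x ≤ qf A x) : zz A * b1 A ^ 2 ≤ qf A (ev 0) := by
  have hz := one_le_zz h1
  have e2 : ev 2 ⬝ᵥ (A *ᵥ ev 0) = zz A * (-b1 A) := by
    unfold b1
    field_simp
  have := row_cs hs h1 (ev 2) (ev 0) (zz A) (-b1 A) (by linarith) rfl e2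
  rwa [neg_sq] at this

theorem zz_le_phi (hp : ∀ x, 0 ≤ x ⬝ᵥ (A *ᵥ x)) (r : ℝ) (p : Fin (2 + 1) → ℝ) :
    zz A * r ^ 2 ≤ 16 * phi r A p := by
  rw [mul_comm]
  exact ev_le_phi hp r p 2

theorem sg_le_phi (h1 : ∀ x, x ⬝ᵥ x ≤ qf A x) (r : ℝ) (p : Fin (2 + 1) → ℝ) :
    sg A * r ^ 2 ≤ 16 * phi r A p := by
  have hp : ∀ x, 0 ≤ x ⬝ᵥ (A *ᵥ x) := fun x => (dot_self_nonneg x).trans (h1 x)
  have h2 := ev_le_phi hp r p 1
  have h3 := sg_le h1
  nlinarith [sq_nonneg r]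

/-! ### the volume -/

theorem dd_dot (i j : Fin (2 + 1)) : (ev i : Mon (2 + 1) 1 → ℝ) ⬝ᵥ ev j = if i = j then 1 else 0 := by
  classical
  unfold dotProduct
  have hz : ∀ a : Mon (2 + 1) 1, a ≠ mvar le_rfl i → ev i a = 0 := by
    intro a ha
    show MvPolynomial.eval 0 (MvPolynomial.pderiv i a.mon) = 0
    rcases Helper59.GR.mon_one a with h | ⟨l, h⟩
    · rw [h, MvPolynomial.pderiv_one, map_zero]
    · rw [h, MvPolynomial.pderiv_X]
      by_cases hl : l = i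
      · exfalso
        apply ha
        subst hl
        have h2 : (mvar le_rfl l : Mon (2 + 1) 1).mon = MvPolynomial.X l := by
          rcases Helper59.GR.mon_one (mvar le_rfl l : Mon (2 + 1) 1) with h3 | ⟨l', h3⟩
          · exfalso
            have h4 := vv_mvar (D := 1) le_rfl l (fun _ => (2 : ℝ))
            have h5 : vv (fun _ => (2 : ℝ)) (mvar le_rfl l : Mon (2 + 1) 1) = 1 := by
              unfold vv
              rw [h3, map_one]
            rw [h5] at h4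
            norm_num at h4
          · have h4 := vv_mvar (D := 1) le_rfl l (fun k => if k = l then (2 : ℝ) else 0)
            have h5 : vv (fun k => if k = l then (2 : ℝ) else 0) (mvar le_rfl l : Mon (2 + 1) 1) =
                if l' = l then 2 else 0 := by
              unfold vv
              rw [h3, MvPolynomial.eval_X]
            rw [h5] at h4
            by_cases hl' : l' = l
            · rw [h3, hl']
            · rw [if_neg hl', if_pos rfl] at h4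
              norm_num at h4
        have h6 : a.mon = (mvar le_rfl l : Mon (2 + 1) 1).mon := h.trans h2.symm
        have h7 : a.ex = (mvar le_rfl l : Mon (2 + 1) 1).ex := MvPolynomial.monomial_left_injective one_ne_zero h6
        apply Subtype.ext
        funext k
        apply Fin.ext
        have h8 := DFunLike.congr_fun h7 k
        rwa [Mon.ex_apply, Mon.ex_apply] at h8
      · rw [Pi.single_eq_of_ne (Ne.symm (fun h' => hl h'.symm)), map_zero]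
  rw [Finset.sum_eq_single (mvar le_rfl i)]
  · rw [ev_mvar, ev_mvar, if_pos rfl, one_mul]
  · intro b _ hb
    rw [hz b hb, zero_mul]
  · intro h
    exact absurd (Finset.mem_univ _) h

/-- the product `zz * sg` is the determinant of the block of `R, z` -/
theorem zz_sg (h1 : ∀ x, x ⬝ᵥ x ≤ qf A x) :
    zz A * sg A = zz A * (ev 1 ⬝ᵥ (A *ᵥ ev 1)) - rz A ^ 2 := by
  have hz := one_le_zz h1
  unfold sg
  field_simp

theorem GG_bd (hs : A.IsSymm) (h1 : ∀ x, x ⬝ᵥ x ≤ qf A x) (r : ℝ) (p : Fin (2 + 1) → ℝ) :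
    64 * (zz A * sg A) ≤ GG r A p ∧ GG r A p ≤ 81 * (zz A * sg A) := by
  have hz := one_le_zz h1
  have hg := one_le_sg hs h1
  have hdet := zz_sg h1
  set a := ev 1 ⬝ᵥ (A *ᵥ ev 1) with ha
  set b := rz A with hb
  set c := zz A with hc
  have hJ : ∀ i j : Fin 2, Jf r A p i j = 8 * (ev i.succ ⬝ᵥ (A *ᵥ ev j.succ)) := by
    intro i j
    unfold Jf
    rw [Matrix.sum_apply]
    have e1 : ∀ q : Fin (2 + 1) → Fin (1 + 1), ((Wd 2 1 (nodp 1 p r q)).transpose * A * Wd 2 1 (nodp 1 p r q)) i j =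
        ev i.succ ⬝ᵥ (A *ᵥ ev j.succ) := by
      intro q
      rw [Pool.Agent.Helper48.NS.W_apply, Helper59.GR.dd_one i.succ _ 0, Helper59.GR.dd_one j.succ _ 0]
      rfl
    rw [Finset.sum_congr rfl (fun q _ => e1 q), Finset.sum_const, nsmul_eq_mul, card_nodes]
    unfold nn
    norm_num
  have hG : GG r A p = (1 + 8 * a) * (1 + 8 * c) - 64 * b ^ 2 := by
    unfold GG
    rw [Matrix.det_fin_two]
    simp only [Matrix.add_apply, Matrix.one_apply_eq, hJ]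
    rw [Matrix.one_apply_ne (by decide), Matrix.one_apply_ne (by decide)]
    have e1 : ev (Fin.succ (0 : Fin 2)) ⬝ᵥ (A *ᵥ ev (Fin.succ (0 : Fin 2))) = a := rfl
    have e2 : ev (Fin.succ (1 : Fin 2)) ⬝ᵥ (A *ᵥ ev (Fin.succ (1 : Fin 2))) = c := rfl
    have e3 : ev (Fin.succ (0 : Fin 2)) ⬝ᵥ (A *ᵥ ev (Fin.succ (1 : Fin 2))) = b := rfl
    have e4 : ev (Fin.succ (1 : Fin 2)) ⬝ᵥ (A *ᵥ ev (Fin.succ (0 : Fin 2))) = b := bil_symm hs _ _
    rw [e1, e2, e3, e4]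
    ring
  -- the form is at least the unit form
  have hq : ∀ x y : ℝ, x ^ 2 + y ^ 2 ≤ a * x ^ 2 + 2 * b * x * y + c * y ^ 2 := by
    intro x y
    have h2 := h1 (x • ev 1 + y • ev 2)
    have e1 : (x • (ev 1 : Mon (2 + 1) 1 → ℝ) + y • ev 2) ⬝ᵥ (x • ev 1 + y • ev 2) = x ^ 2 + y ^ 2 := by
      rw [add_dotProduct, dotProduct_add, dotProduct_add, smul_dotProduct, smul_dotProduct, smul_dotProduct,
        smul_dotProduct, dotProduct_smul, dotProduct_smul, dotProduct_smul, dotProduct_smul, dd_dot, dd_dot, dd_dot,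
        dd_dot, if_pos rfl, if_neg (by decide), if_neg (by decide), if_pos rfl]
      simp only [smul_eq_mul]
      ring
    have e2 : qf A (x • ev 1 + y • ev 2) = a * x ^ 2 + 2 * b * x * y + c * y ^ 2 := by
      unfold qf
      rw [Matrix.mulVec_add, Matrix.mulVec_smul, Matrix.mulVec_smul, add_dotProduct, dotProduct_add, dotProduct_add,
        smul_dotProduct, smul_dotProduct, smul_dotProduct, smul_dotProduct, dotProduct_smul, dotProduct_smul,
        dotProduct_smul, dotProduct_smul]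
      have f1 : ev 1 ⬝ᵥ (A *ᵥ ev 2) = b := rfl
      have f2 : ev 2 ⬝ᵥ (A *ᵥ ev 1) = b := bil_symm hs _ _
      have f3 : ev 2 ⬝ᵥ (A *ᵥ ev 2) = c := rfl
      rw [f1, f2, f3]
      simp only [smul_eq_mul]
      ring
    rwa [e1, e2] at h2
  have ha1 : 1 ≤ a := by
    have := hq 1 0
    nlinarith
  have hdisc : b ^ 2 ≤ (a - 1) * (c - 1) := by
    have h3 : ∀ t : ℝ, 0 ≤ (a - 1) * (t * t) + 2 * b * t + (c - 1) := by
      intro t
      have := hq t 1
      nlinarith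
    have h4 := discrim_le_zero h3
    unfold discrim at h4
    nlinarith
  rw [hG, hdet]
  constructor
  · nlinarith
  · nlinarith

end

end Pool.Agent.Helper62.PLK
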