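import Pool.Agent.Helper62.PLK.Cnt
import Pool.Agent.Helper31.EC.Cpy
import Pool.Agent.Helper31.EC.Real
import Pool.Agent.Helper31.EC.DensS
import Pool.Agent.Helper89.LX.Jn

/-! Last clause of `PLK1`: a row `σ (R - ρ0 - ρ1 t)` with coefficients known literally to `V` which is bounded at the
time `t` (real over the line and `V`) is bounded at every tame time `τ` of every extension; count. -/

set_option autoImplicit false

namespace Pool.Agent.Helper62.PLK

open Finset Filter Topology Pool.Agent.Helper69.RK Pool.Agent.Helper31.EC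
open Pool.Agent.Helper31.EC.Sp Pool.Agent.Helper31.EC.QS

noncomputable section

theorem vec1_dg {S : Sp} (f : TR S) (r : ℝ) : (TR.vec (fun _ : Fin 1 => f)).dg r = TR.dg f r := rfl

theorem vec2_dg {S : Sp} (f g : TR S) (r : ℝ) : (TR.vec ![f, g]).dg r = TR.dg f r ⊔ TR.dg g r := by
  rw [TR.vec_dg_eq, sup_univ_succ]
  rw [sup_univ_succ]
  simp

/-- TWO TIMES: the coefficients of a bounded row are bounded along the line -/
theorem two_times {T : Sp} (t c x : TR T) {al : ℕ → Type} (V : ∀ k, (T.F k).Ω → al k) (hV : Bdd V)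
    (hT : h (TR.dg t 1) (io V ⊔ TR.dg c 1 ⊔ TR.dg x 1) = 1) (σ ρ0 ρ1 : ∀ k, al k → ℝ) (K : ℕ → ℝ) (hK : T.Sub K)
    (hrow : Typ (fun k ω => 0 ≤ σ k (V k ω) ∧ σ k (V k ω) * T.dl 1 k ≤ K k ∧
      |σ k (V k ω) * (TR.ev c k ω + TR.ev t k ω * TR.ev x k ω - ρ0 k (V k ω) - ρ1 k (V k ω) * TR.ev t k ω)| ≤ K k)) :
    ∃ K' : ℕ → ℝ, T.Sub K' ∧ Typ (fun k ω => |σ k (V k ω) * (TR.ev c k ω - ρ0 k (V k ω))| ≤ K' k ∧
      |σ k (V k ω) * (TR.ev x k ω - ρ1 k (V k ω))| ≤ K' k) := by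
  classical
  set X : ∀ k, (T.F k).Ω → al k × (Fin 2 → ℤ) := fun k ω => (V k ω, (TR.vec ![c, x]).cellv 1 k ω) with hX
  have hXb : Bdd X := hV.pair ((TR.vec ![c, x]).bdd 1)
  have hXi : io X = io V ⊔ TR.dg c 1 ⊔ TR.dg x 1 := by
    rw [sup_assoc, ← vec2_dg]
    exact io_pair hV ((TR.vec ![c, x]).bdd 1)
  set D := (Pj.id T).join X with hD
  set p1 : Pj D.sp T := D.p1 with hp1
  set p2 : Pj D.sp T := D.p2 with hp2
  have hsupp : ∀ k w, (D.sp.F k).μ w ≠ 0 → X k (p1.π k w) = X k (p2.π k w) := fun k w hw =>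
    (Pj.id T).join_supp X k w hw
  -- the difference of the two times is nondegenerate
  have hcom : p1.map (io X) = p2.map (io X) := by
    have h1 := (Pj.id T).join_common X hXb
    rwa [Pj.id_map] at h1
  have h1 : h (dg (p1.qs (mk t)) 1) (dg (p2.qs (mk t)) 1) = 1 := by
    rw [p1.qs_dg, p2.qs_dg, dg_mk _ le_rfl]
    have h2 := (Pj.id T).join_indep X hXb (TR.dg t 1) (TR.dg t 1)
    rw [Pj.id_map] at h2
    have h2' : I (p1.map (TR.dg t 1)) (p2.map (TR.dg t 1)) (p1.map (io X)) = 0 := h2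
    have h3 : h (p1.map (TR.dg t 1)) (p1.map (io X)) = 1 := by
      rw [p1.h_map, hXi]
      exact hT
    have h4 : h (p1.map (TR.dg t 1)) (p2.map (TR.dg t 1) ⊔ p1.map (io X)) = 1 := by
      rw [I_eq] at h2'
      linarith
    have h5 : h (p1.map (TR.dg t 1)) (p2.map (TR.dg t 1) ⊔ p1.map (io X)) ≤
      h (p1.map (TR.dg t 1)) (p2.map (TR.dg t 1)) := h_anti le_sup_left
    have h6 : h (p1.map (TR.dg t 1)) (p2.map (TR.dg t 1)) ≤ H (p1.map (TR.dg t 1)) := h_le_H _ _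
    have h7 : H (p1.map (TR.dg t 1)) ≤ 1 := by
      rw [p1.H_map, ← dg_mk t le_rfl]
      exact H_dg_le _ zero_le_one
    linarith
  have hu := isUnit_sub h1
  rw [p1.qs_mk, p2.qs_mk, ← map_sub, isUnit_mk] at hu
  obtain ⟨L, hL, hLt⟩ := hu
  obtain ⟨Kt, hKt, hKt'⟩ := t.2
  -- typical events upstairs
  have r1 := p1.typ_iff.mpr hrow
  have r2 := p2.typ_iff.mpr hrow
  have hn1 : ∀ k, (D.sp.F k).n = (T.F k).n := p1.hn
  have hdl : ∀ k, D.sp.dl 1 k = T.dl 1 k := by
    intro k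
    unfold Sp.dl
    rw [hn1]
  have sub_iff : ∀ {f : ℕ → ℝ}, D.sp.Sub f → T.Sub f := by
    intro f hf
    refine ⟨hf.1, ?_⟩
    have := hf.2
    simp only [hn1] at this
    exact this
  set K1 : ℕ → ℝ := fun k => L k * (3 * K k + Kt k * K k) with hK1
  set K2 : ℕ → ℝ := fun k => K1 k + (K k + Kt k * K1 k) with hK2
  have hLT : T.Sub L := sub_iff hL
  have hK1S : T.Sub K1 := hLT.mul (((T.Sub_const (by norm_num)).mul hK).add (Sub.mul hKt hK))
  have hK2S : T.Sub K2 := hK1S.add (hK.add (Sub.mul hKt hK1S))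
  refine ⟨K2, hK2S, ?_⟩
  rw [← p1.typ_iff]
  refine ((r1.and r2).and hLt).mono ?_
  filter_upwards [hKt', hK.1, hKt.1, hLT.1] with k b1 b2 b3 b4 w hw hEw
  obtain ⟨⟨⟨s0, s1, s2⟩, ⟨_, _, s3⟩⟩, s4⟩ := hEw
  have hs := hsupp k w hw
  have hs1 : V k (p1.π k w) = V k (p2.π k w) := congrArg Prod.fst hs
  have hs2 : (TR.vec ![c, x]).cellv 1 k (p1.π k w) = (TR.vec ![c, x]).cellv 1 k (p2.π k w) := congrArg Prod.snd hs
  have hc := (TR.vec ![c, x]).cellv_close 1 k _ _ hs2
  have hc0 : |TR.ev c k (p1.π k w) - TR.ev c k (p2.π k w)| ≤ T.dl 1 k := hc 0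
  have hc1 : |TR.ev x k (p1.π k w) - TR.ev x k (p2.π k w)| ≤ T.dl 1 k := hc 1
  have w1 := p1.supp k w hw
  have w2 := p2.supp k w hw
  have t1 := b1 _ w1
  have t2 := b1 _ w2
  rw [← hs1] at s3
  have e4 : TR.ev (p1.tr t - p2.tr t) k w = TR.ev t k (p1.π k w) - TR.ev t k (p2.π k w) := rfl
  rw [e4] at s4
  set s := σ k (V k (p1.π k w)) with hsd
  set a := ρ0 k (V k (p1.π k w)) with had
  set b := ρ1 k (V k (p1.π k w)) with hbd
  set ta := TR.ev t k (p1.π k w) with hta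
  set tb := TR.ev t k (p2.π k w) with htb
  set ca := TR.ev c k (p1.π k w) with hca
  set cb := TR.ev c k (p2.π k w) with hcb
  set xa := TR.ev x k (p1.π k w) with hxa
  set xb := TR.ev x k (p2.π k w) with hxb
  have ht1 : |ta| ≤ Kt k := t1
  have ht2 : |tb| ≤ Kt k := t2
  -- the value of the row of the first line at the second time
  have q1 : |s * (ca - a) + tb * (s * (xa - b))| ≤ 2 * K k + Kt k * K k := by
    have q2 : s * (ca - a) + tb * (s * (xa - b)) = s * (cb + tb * xb - a - b * tb) + s * (ca - cb) +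
      tb * (s * (xa - xb)) := by ring
    rw [q2]
    have q3 : |s * (ca - cb)| ≤ K k := by
      rw [abs_mul, abs_of_nonneg s0]
      exact (mul_le_mul_of_nonneg_left hc0 s0).trans s1
    have q4 : |tb * (s * (xa - xb))| ≤ Kt k * K k := by
      rw [abs_mul, abs_mul, abs_of_nonneg s0]
      exact mul_le_mul ht2 ((mul_le_mul_of_nonneg_left hc1 s0).trans s1) (by positivity) b3
    have q5 := abs_add_le (s * (cb + tb * xb - a - b * tb) + s * (ca - cb)) (tb * (s * (xa - xb)))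
    have q6 := abs_add_le (s * (cb + tb * xb - a - b * tb)) (s * (ca - cb))
    linarith
  have q7 : |s * (ca - a) + ta * (s * (xa - b))| ≤ K k := by
    have q8 : s * (ca - a) + ta * (s * (xa - b)) = s * (ca + ta * xa - a - b * ta) := by ring
    rw [q8]
    exact s2
  have q9 : |ta - tb| * |s * (xa - b)| ≤ 3 * K k + Kt k * K k := by
    rw [← abs_mul]
    have q10 : (ta - tb) * (s * (xa - b)) = (s * (ca - a) + ta * (s * (xa - b))) -
      (s * (ca - a) + tb * (s * (xa - b))) := by ring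
    rw [q10]
    have := abs_sub (s * (ca - a) + ta * (s * (xa - b))) (s * (ca - a) + tb * (s * (xa - b)))
    linarith
  have q11 : |s * (xa - b)| ≤ K1 k := by
    have q12 : |s * (xa - b)| * 1 ≤ |s * (xa - b)| * (L k * |ta - tb|) :=
      mul_le_mul_of_nonneg_left s4 (abs_nonneg _)
    have q13 : L k * (|ta - tb| * |s * (xa - b)|) ≤ L k * (3 * K k + Kt k * K k) := mul_le_mul_of_nonneg_left q9 b4
    show _ ≤ L k * (3 * K k + Kt k * K k)
    calc |s * (xa - b)| = |s * (xa - b)| * 1 := by ring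
      _ ≤ |s * (xa - b)| * (L k * |ta - tb|) := q12
      _ = L k * (|ta - tb| * |s * (xa - b)|) := by ring
      _ ≤ _ := q13
  have hK1k : 0 ≤ K1 k := (abs_nonneg _).trans q11
  have q14 : |s * (ca - a)| ≤ K k + Kt k * K1 k := by
    have q15 : s * (ca - a) = (s * (ca - a) + ta * (s * (xa - b))) - ta * (s * (xa - b)) := by ring
    rw [q15]
    have q16 : |ta * (s * (xa - b))| ≤ Kt k * K1 k := by
      rw [abs_mul]
      exact mul_le_mul ht1 q11 (abs_nonneg _) b3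
    have := abs_sub (s * (ca - a) + ta * (s * (xa - b))) (ta * (s * (xa - b)))
    linarith
  have q17 : 0 ≤ Kt k * K1 k := mul_nonneg b3 hK1k
  refine ⟨?_, ?_⟩
  · show _ ≤ K1 k + (K k + Kt k * K1 k)
    linarith
  · show _ ≤ K1 k + (K k + Kt k * K1 k)
    linarith

/-- COUNT AT AN ARBITRARY TIME: the digits of the line at a tame time `τ` of an extension, over `V` and `τ` -/
theorem cmp_row {T : Sp} (t c x : TR T) {al : ℕ → Type} (V : ∀ k, (T.F k).Ω → al k) (hV : Bdd V)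
    (hT : h (TR.dg t 1) (io V ⊔ TR.dg c 1 ⊔ TR.dg x 1) = 1) (σ ρ0 ρ1 : ∀ k, al k → ℝ) (K : ℕ → ℝ) (hK : T.Sub K)
    (h1 : ∀ᶠ k in UF, ∀ ω, (T.F k).μ ω ≠ 0 → 1 ≤ σ k (V k ω))
    (hrow : Typ (fun k ω => σ k (V k ω) * T.dl 1 k ≤ K k ∧ σ k (V k ω) * |ρ1 k (V k ω)| * T.dl 1 k ≤ K k ∧
      |σ k (V k ω) * (TR.ev c k ω + TR.ev t k ω * TR.ev x k ω - ρ0 k (V k ω) - ρ1 k (V k ω) * TR.ev t k ω)| ≤ K k))
    (r : ℝ) (hr : 0 ≤ r) (hr1 : r ≤ 1) (D : Sp) (q : Pj D T) (τ : QS D) :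
    h (dg (q.qs (mk c) + τ * q.qs (mk x)) r) (q.map (io V) ⊔ dg τ 1) ≤
      ul (fun k => ∑ ω, (T.F k).μ ω * max 0 (r - Real.logb 2 (σ k (V k ω)) / (T.F k).n)) := by
  classical
  obtain ⟨K', hK', hrow'⟩ := two_times t c x V hV hT σ ρ0 ρ1 K hK (hrow.mono (by
    filter_upwards [h1] with k hk ω hω hE
    exact ⟨by linarith [hk ω hω], hE.1, hE.2.2⟩))
  set τ' := rep τ with hτ'
  obtain ⟨Kt, hKt, hKt'⟩ := τ'.2
  set y : TR D := q.tr c + τ' * q.tr x with hy
  have hmk : q.qs (mk c) + τ * q.qs (mk x) = mk y := by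
    rw [hy, map_add, map_mul, q.qs_mk, q.qs_mk, hτ', mk_rep]
  rw [hmk, dg_mk y hr1, ← vec1_dg y r]
  set X : ∀ k, (D.F k).Ω → al k × (Fin 1 → ℤ) :=
    fun k ω => (V k (q.π k ω), (TR.vec (fun _ : Fin 1 => τ')).cellv 1 k ω) with hX
  have hVq : Bdd (S := D) (fun k ω => V k (q.π k ω)) := (q.bdd_iff V).mpr hV
  have hXb : Bdd X := hVq.pair ((TR.vec (fun _ : Fin 1 => τ')).bdd 1)
  have hXi : io X = q.map (io V) ⊔ dg τ 1 := by
    have e1 : io X = io (S := D) (fun k ω => V k (q.π k ω)) ⊔ (TR.vec (fun _ : Fin 1 => τ')).dg 1 :=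
      io_pair hVq ((TR.vec (fun _ : Fin 1 => τ')).bdd 1)
    rw [e1, vec1_dg, q.map_io, ← dg_mk τ' le_rfl, hτ', mk_rep]
  rw [← hXi]
  have hn : ∀ k, (D.F k).n = (T.F k).n := q.hn
  have hdl : ∀ r k, D.dl r k = T.dl r k := by
    intro r k
    unfold Sp.dl
    rw [hn]
  have subD : ∀ {f : ℕ → ℝ}, T.Sub f → D.Sub f := by
    intro f hf
    refine ⟨hf.1, ?_⟩
    have := hf.2
    simp only [← hn] at this
    exact this
  have hK'D := subD hK'
  have hKD := subD hK
  set K2 : ℕ → ℝ := fun k => K' k + Kt k * K' k + K k with hK2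
  have hK2S : D.Sub K2 := (hK'D.add (Sub.mul hKt hK'D)).add hKD
  set g : ∀ k, al k × (Fin 1 → ℤ) → ℝ := fun k b => max 0 (r - Real.logb 2 (σ k b.1) / (T.F k).n) with hg
  have hsuppq : ∀ k ω, (D.F k).μ ω ≠ 0 → (T.F k).μ (q.π k ω) ≠ 0 := fun k ω hω => q.supp k ω hω
  have key := h_dg_ctr (TR.vec (fun _ : Fin 1 => y)) r hr X hXb
    (fun k ω => (σ k (V k (q.π k ω)) * |ρ1 k (V k (q.π k ω))| * T.dl 1 k ≤ K k) ∧
      (|σ k (V k (q.π k ω)) * (TR.ev c k (q.π k ω) - ρ0 k (V k (q.π k ω)))| ≤ K' k ∧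
      |σ k (V k (q.π k ω)) * (TR.ev x k (q.π k ω) - ρ1 k (V k (q.π k ω)))| ≤ K' k))
    (by
      have e1 := q.typ_iff.mpr (Typ.and (hrow.mono (E' := fun k ω => σ k (V k ω) * |ρ1 k (V k ω)| * T.dl 1 k ≤ K k)
        (Eventually.of_forall fun k ω _ hE => hE.2.1)) hrow')
      exact e1)
    K2 hK2S (fun k b _ => ρ0 k b.1 + ρ1 k b.1 * (b.2 0 * D.dl 1 k)) g 1
    (by
      filter_upwards [h1] with k hk ω hω
      refine ⟨le_max_left _ _, max_le zero_le_one ?_⟩
      have e1 : 0 ≤ Real.logb 2 (σ k (V k (q.π k ω))) / (T.F k).n :=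
        div_nonneg (Real.logb_nonneg (by norm_num) (hk _ (hsuppq k ω hω))) (T.F k).pos.le
      show r - Real.logb 2 (σ k (V k (q.π k ω))) / (T.F k).n ≤ 1
      linarith)
    (by
      filter_upwards [h1, hKt', hKt.1, hK'.1, hK.1] with k hk b1 b2 b3 b4 ω hω hE i
      obtain ⟨e1, e2, e3⟩ := hE
      have w1 := hsuppq k ω hω
      have s1 := hk _ w1
      have t1 := b1 ω hω
      have hδ := D.dl_pos 1 k
      show |TR.ev y k ω - (ρ0 k (V k (q.π k ω)) + ρ1 k (V k (q.π k ω)) *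
        ((⌊TR.ev τ' k ω / D.dl 1 k⌋ : ℤ) * D.dl 1 k))| ≤
        (K' k + Kt k * K' k + K k) * 2 ^ (max 0 (r - Real.logb 2 (σ k (V k (q.π k ω))) / (T.F k).n) * (D.F k).n) *
          D.dl r k
      have ey : TR.ev y k ω = TR.ev c k (q.π k ω) + TR.ev τ' k ω * TR.ev x k (q.π k ω) := rfl
      rw [ey]
      set s := σ k (V k (q.π k ω)) with hsd
      set a := ρ0 k (V k (q.π k ω)) with had
      set b := ρ1 k (V k (q.π k ω)) with hbd
      set u := TR.ev τ' k ω with hu
      set cc := TR.ev c k (q.π k ω) with hcc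
      set xx := TR.ev x k (q.π k ω) with hxx
      have hs0 : 0 < s := by linarith
      have hu' : |u| ≤ Kt k := t1
      have f1 := Int.floor_le (u / D.dl 1 k)
      have f2 := Int.lt_floor_add_one (u / D.dl 1 k)
      rw [le_div_iff₀ hδ] at f1
      rw [div_lt_iff₀ hδ] at f2
      set j : ℝ := ((⌊u / D.dl 1 k⌋ : ℤ) : ℝ) with hj
      have f3 : |u - j * D.dl 1 k| ≤ D.dl 1 k := by
        rw [abs_le]
        constructor <;> nlinarith
      have m1 : s * |cc + u * xx - (a + b * (j * D.dl 1 k))| ≤ K' k + Kt k * K' k + K k := by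
        have m2 : s * |cc + u * xx - (a + b * (j * D.dl 1 k))| =
            |s * (cc - a) + u * (s * (xx - b)) + s * b * (u - j * D.dl 1 k)| := by
          rw [← abs_of_pos hs0, ← abs_mul, abs_of_pos hs0]
          congr 1
          ring
        rw [m2]
        have m3 : |u * (s * (xx - b))| ≤ Kt k * K' k := by
          rw [abs_mul]
          exact mul_le_mul hu' e3 (abs_nonneg _) b2
        have m4 : |s * b * (u - j * D.dl 1 k)| ≤ K k := by
          rw [abs_mul, abs_mul, abs_of_pos hs0]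
          refine le_trans (mul_le_mul_of_nonneg_left f3 (by positivity)) ?_
          rw [hdl]
          exact e1
        have m5 := abs_add_le (s * (cc - a) + u * (s * (xx - b))) (s * b * (u - j * D.dl 1 k))
        have m6 := abs_add_le (s * (cc - a)) (u * (s * (xx - b)))
        linarith
      have hKK : 0 ≤ K' k + Kt k * K' k + K k := le_trans (by positivity) m1
      have m7 : 1 / s ≤ 2 ^ (max 0 (r - Real.logb 2 s / (T.F k).n) * (D.F k).n) * D.dl r k := by
        have hnp := (T.F k).pos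
        unfold Sp.dl
        rw [hn, ← Real.rpow_add (by norm_num : (0 : ℝ) < 2)]
        have m8 : 1 / s = 2 ^ (-Real.logb 2 s) := by
          rw [Real.rpow_neg (by norm_num), Real.rpow_logb (by norm_num) (by norm_num) hs0, one_div]
        rw [m8]
        apply Real.rpow_le_rpow_of_exponent_le (by norm_num)
        have m9 : (r - Real.logb 2 s / (T.F k).n) * (T.F k).n ≤
            max 0 (r - Real.logb 2 s / (T.F k).n) * (T.F k).n :=
          mul_le_mul_of_nonneg_right (le_max_right _ _) hnp.le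
        have m10 : (r - Real.logb 2 s / (T.F k).n) * (T.F k).n = r * (T.F k).n - Real.logb 2 s := by
          field_simp
        linarith
      have m11 : |cc + u * xx - (a + b * (j * D.dl 1 k))| ≤ (K' k + Kt k * K' k + K k) * (1 / s) := by
        rw [mul_one_div, le_div_iff₀ hs0, mul_comm]
        exact m1
      calc |cc + u * xx - (a + b * (j * D.dl 1 k))| ≤ (K' k + Kt k * K' k + K k) * (1 / s) := m11
        _ ≤ (K' k + Kt k * K' k + K k) *
            (2 ^ (max 0 (r - Real.logb 2 s / (T.F k).n) * (D.F k).n) * D.dl r k) :=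
            mul_le_mul_of_nonneg_left m7 hKK
        _ = _ := by ring)
  rw [Nat.cast_one, one_mul] at key
  refine key.trans (le_of_eq ?_)
  congr 1
  funext k
  exact Pool.Agent.Helper89.LX.sum_push (q.fp k)
    (fun ω => max 0 (r - Real.logb 2 (σ k (V k ω)) / (T.F k).n))

end

end Pool.Agent.Helper62.PLK
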