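import Pool.Agent.Helper14.MC.Cntv
import Pool.Agent.Helper31.EC.Dig

/-! Count with variable radii: if the point is at distance at most `2 ^ (g n) dl r` from a centre, and the centre and
`g` are functions of the literal variable `X`, then the digits of level `r` over `X` are at most the mean of `g`. -/

set_option autoImplicit false

namespace Pool.Agent.Helper62.PLK

open Finset Filter Topology MeasureTheory Pool.Agent.Helper69.RK Pool.Agent.Helper31.EC
open Pool.Agent.Helper31.EC.Sp
open Pool.Agent.Helper80.LF (Q mem_Q Q_vol Q_disj)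
open Pool.Agent.Helper59.EN (mass_nn res_nn)
open Pool.Agent.Helper14.MC (fin_cnt res_of res_of_not)

noncomputable section

/-- the volume of a cube -/
theorem vol_cube {m : ℕ} (c : Fin m → ℝ) (L : ℝ) (hL : 0 ≤ L) :
    volume {P : Fin m → ℝ | ∀ i, |P i - c i| ≤ L} ≤ ENNReal.ofReal ((2 * L) ^ m) := by
  have h1 : {P : Fin m → ℝ | ∀ i, |P i - c i| ≤ L} = Set.Icc (fun i => c i - L) (fun i => c i + L) := by
    ext P
    simp only [Set.mem_setOf_eq, Set.mem_Icc, Pi.le_def]
    constructor
    · intro hP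
      exact ⟨fun i => by linarith [(abs_le.mp (hP i)).1], fun i => by linarith [(abs_le.mp (hP i)).2]⟩
    · intro hP i
      rw [abs_le]
      exact ⟨by linarith [hP.1 i], by linarith [hP.2 i]⟩
  rw [h1, Real.volume_Icc_pi, ENNReal.ofReal_pow (by positivity)]
  refine le_of_eq ?_
  rw [Finset.prod_congr rfl (fun i _ => by rw [show c i + L - (c i - L) = 2 * L by ring]), Finset.prod_const,
    Finset.card_univ, Fintype.card_fin]

/-- COUNT with variable radii -/
theorem h_dg_ctr {S : Sp} {m : ℕ} (y : S.VV m) (r : ℝ) (hr : 0 ≤ r) {β : ℕ → Type} (X : ∀ k, (S.F k).Ω → β k)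
    (hX : Bdd X) (E : ∀ k, (S.F k).Ω → Prop) (hE : Typ E) (K : ℕ → ℝ) (hK : S.Sub K)
    (c : ∀ k, β k → Fin m → ℝ) (g : ∀ k, β k → ℝ) (C : ℝ)
    (hg : ∀ᶠ k in UF, ∀ ω, (S.F k).μ ω ≠ 0 → 0 ≤ g k (X k ω) ∧ g k (X k ω) ≤ C)
    (hh : ∀ᶠ k in UF, ∀ ω, (S.F k).μ ω ≠ 0 → E k ω → ∀ i,
      |y.v k ω i - c k (X k ω) i| ≤ K k * 2 ^ (g k (X k ω) * (S.F k).n) * S.dl r k) :
    h (y.dg r) (io X) ≤ m * ul (fun k => ∑ ω, (S.F k).μ ω * g k (X k ω)) := by
  classical
  obtain ⟨Ky, hKyS, hKy⟩ := y.bd
  set R : ℕ → ℝ := fun k => 7 * (Ky k + 1) with hR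
  have hRS : S.Sub R := (S.Sub_const (by norm_num)).mul (hKyS.add (S.Sub_const zero_le_one))
  set B : ℕ → ℝ := fun k => 2 * (K k + 1) with hB
  have hBS : S.Sub B := (S.Sub_const (by norm_num)).mul (hK.add (S.Sub_const zero_le_one))
  have hmass : ∀ k, ∑ ω, (S.F k).μ ω = 1 := fun k => (S.F k).ms
  set g0 : ℕ → ℝ := fun k => ∑ ω, (S.F k).μ ω * g k (X k ω) with hg0
  have hg0U : UB g0 := by
    apply UB_of_nonneg_le (C := C)
    · filter_upwards [hg] with k hk
      refine Finset.sum_nonneg fun ω _ => ?_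
      by_cases hω : (S.F k).μ ω = 0
      · rw [hω, zero_mul]
      · exact mul_nonneg ((S.F k).nn ω) (hk ω hω).1
    · filter_upwards [hg] with k hk
      calc g0 k ≤ ∑ ω, (S.F k).μ ω * C := by
            refine Finset.sum_le_sum fun ω _ => ?_
            by_cases hω : (S.F k).μ ω = 0
            · rw [hω, zero_mul, zero_mul]
            · exact mul_le_mul_of_nonneg_left (hk ω hω).2 ((S.F k).nn ω)
        _ = C := by rw [← Finset.sum_mul, hmass, one_mul]
  set fy : ℕ → ℝ := S.rt (fun k => Setoid.ker (y.cellv r k)) (fun k => Setoid.ker (X k)) with hfy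
  have hHy : h (y.dg r) (io X) = ul fy := Sp.h_io (y.bdd r) hX
  have hUBy : UB fy := Sp.UB_rt (y.bdd r).toInf _
  set p0 : ℕ → ℝ := fun k => mass (res (S.F k).μ (fun ω => ¬ E k ω)) with hp0
  have hp0t : Tendsto p0 UF (𝓝 0) := hE
  rw [hHy]
  set f : ℕ → ℝ := fun k => 1 / (S.F k).n + m * (Real.logb 2 (B k + 2) / (S.F k).n) +
    m * (Real.logb 2 (R k + 2) / (S.F k).n + r) * p0 k with hf
  have hft : Tendsto f UF (𝓝 0) := by
    have t1 := S.div_n_tendsto 1
    have t2 := hBS.2.const_mul (m : ℝ)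
    have t4 := ((hRS.2.add_const r).const_mul (m : ℝ)).mul hp0t
    have t5 := (t1.add t2).add t4
    simp only [mul_zero, add_zero] at t5
    exact t5
  have hkey : ∀ᶠ k in UF, fy k ≤ f k + m * g0 k := by
    filter_upwards [hKy, hKyS.1, hK.1, hg, hh] with k b1 b2 b3 b4 b5
    have hn := (S.F k).pos
    have hδ := S.dl_pos r k
    have hδ1 : S.dl r k ≤ 1 := by
      have := S.dl_anti hr k
      rwa [S.dl_zero] at this
    set θ : (S.F k).Ω → ℝ := fun ω => (2 * ((K k * 2 ^ (g k (X k ω) * (S.F k).n) + 1) * S.dl r k)) ^ m with hθ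
    have hfin := fin_cnt (M := m) (S.F k).μ (fun ω => (X k ω, Quotient.mk (S.F k).Z ω)) (y.v k) (E k) (S.dl r k)
      (Ky k + 1) θ (fun _ => 0) 0
      (fun ω => {P : Fin m → ℝ | ∀ i, |P i - c k (X k ω) i| ≤ (K k * 2 ^ (g k (X k ω) * (S.F k).n) + 1) * S.dl r k})
      (S.F k).nn (S.F k).ms hδ hδ1 (by linarith) (fun ω hω i => (b1 ω hω i).trans (by linarith))
      (fun ω hω => le_rfl) (fun ω _ => by positivity)
      (by
        intro ω ω' h1 h2 _ _ h5 _
        rw [Prod.mk.injEq] at h5
        rw [h5.1])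
      (by
        intro ω hω _
        exact vol_cube _ _ (by positivity))
      (by
        intro ω hω hEω P hP i
        rw [mem_Q hδ] at hP
        have h2 := hP i
        have f1 := Int.floor_le (P i / S.dl r k)
        have f2 := Int.lt_floor_add_one (P i / S.dl r k)
        have f3 := Int.floor_le (y.v k ω i / S.dl r k)
        have f4 := Int.lt_floor_add_one (y.v k ω i / S.dl r k)
        rw [h2] at f1 f2
        rw [le_div_iff₀ hδ] at f1 f3
        rw [div_lt_iff₀ hδ] at f2 f4
        have h3 : |P i - y.v k ω i| ≤ S.dl r k := by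
          rw [abs_le]
          constructor <;> nlinarith
        have h4 := b5 ω hω hEω i
        calc |P i - c k (X k ω) i| ≤ |P i - y.v k ω i| + |y.v k ω i - c k (X k ω) i| := by
              have := abs_add_le (P i - y.v k ω i) (y.v k ω i - c k (X k ω) i)
              rwa [sub_add_sub_cancel] at this
          _ ≤ S.dl r k + K k * 2 ^ (g k (X k ω) * (S.F k).n) * S.dl r k := add_le_add h3 h4
          _ = _ := by ring)
    have hcy : CH (S.F k).μ (fun ω i => ⌊y.v k ω i / S.dl r k⌋) (fun ω => (X k ω, Quotient.mk (S.F k).Z ω)) =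
        fy k * (S.F k).n := by
      show _ = S.rt (fun k => Setoid.ker (y.cellv r k)) (fun k => Setoid.ker (X k)) k * (S.F k).n
      unfold rt
      rw [div_mul_cancel₀ _ hn.ne']
      symm
      apply FSp.e_congr
      · intro ω ω' _ _
        exact Iff.rfl
      · intro ω ω' _ _
        rw [Prod.mk.injEq]
        constructor
        · rintro ⟨h1, h2⟩
          exact ⟨h1, Quotient.sound h2⟩
        · rintro ⟨h1, h2⟩
          exact ⟨h1, Quotient.exact h2⟩
    rw [hcy] at hfin
    have l1 : Real.logb 2 (7 * (Ky k + 1) / S.dl r k) ≤ Real.logb 2 (R k + 2) + r * (S.F k).n := by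
      rw [Real.logb_div (by positivity) hδ.ne']
      unfold dl
      rw [Real.logb_rpow (by norm_num) (by norm_num)]
      have e1 : Real.logb 2 (7 * (Ky k + 1)) ≤ Real.logb 2 (R k + 2) :=
        Real.logb_le_logb_of_le (by norm_num) (by positivity) (by
          show 7 * (Ky k + 1) ≤ 7 * (Ky k + 1) + 2
          linarith)
      linarith
    have hLL0 : 0 ≤ Real.logb 2 (B k + 2) := Real.logb_nonneg (by norm_num) (by
      show 1 ≤ 2 * (K k + 1) + 2
      linarith)
    have l2 : ∀ ω, (S.F k).μ ω ≠ 0 → Real.logb 2 (θ ω / S.dl r k ^ m) ≤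
        m * Real.logb 2 (B k + 2) + m * (g k (X k ω) * (S.F k).n) := by
      intro ω hω
      have e0 : θ ω / S.dl r k ^ m = (2 * (K k * 2 ^ (g k (X k ω) * (S.F k).n) + 1)) ^ m := by
        rw [hθ, ← div_pow]
        congr 1
        field_simp
      have e1 : (1 : ℝ) ≤ 2 ^ (g k (X k ω) * (S.F k).n) := Real.one_le_rpow (by norm_num)
        (mul_nonneg (b4 ω hω).1 hn.le)
      have e2 : 2 * (K k * 2 ^ (g k (X k ω) * (S.F k).n) + 1) ≤ (B k + 2) * 2 ^ (g k (X k ω) * (S.F k).n) := by
        show _ ≤ (2 * (K k + 1) + 2) * _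
        nlinarith
      rw [e0, Real.logb_pow, ← mul_add]
      apply mul_le_mul_of_nonneg_left _ (Nat.cast_nonneg m)
      calc Real.logb 2 (2 * (K k * 2 ^ (g k (X k ω) * (S.F k).n) + 1)) ≤
            Real.logb 2 ((B k + 2) * 2 ^ (g k (X k ω) * (S.F k).n)) :=
            Real.logb_le_logb_of_le (by norm_num) (by positivity) e2
        _ = _ := by
            have e3 : 0 < B k + 2 := by
              show 0 < 2 * (K k + 1) + 2
              linarith
            rw [Real.logb_mul e3.ne' (by positivity), Real.logb_rpow (by norm_num) (by norm_num)]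
    have l3 : ∑ ω, res (S.F k).μ (E k) ω * Real.logb 2 (θ ω / S.dl r k ^ m) ≤
        m * Real.logb 2 (B k + 2) + m * (g0 k * (S.F k).n) := by
      have h1 : ∀ ω, res (S.F k).μ (E k) ω * Real.logb 2 (θ ω / S.dl r k ^ m) ≤
          (S.F k).μ ω * (m * Real.logb 2 (B k + 2)) + m * (((S.F k).μ ω * g k (X k ω)) * (S.F k).n) := by
        intro ω
        by_cases hω : (S.F k).μ ω = 0
        · have e0 : res (S.F k).μ (E k) ω = 0 := by
            unfold res
            split_ifs
            · exact hω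
            · rfl
          rw [e0, hω, zero_mul, zero_mul, zero_mul, zero_mul, mul_zero, add_zero]
        · have h2 : 0 ≤ g k (X k ω) := (b4 ω hω).1
          have h3 : 0 ≤ (S.F k).μ ω := (S.F k).nn ω
          have h4 : (S.F k).μ ω * (m * Real.logb 2 (B k + 2)) + m * (((S.F k).μ ω * g k (X k ω)) * (S.F k).n) =
              (S.F k).μ ω * (m * Real.logb 2 (B k + 2) + m * (g k (X k ω) * (S.F k).n)) := by ring
          rw [h4]
          by_cases hEω : E k ω
          · rw [res_of _ _ _ hEω]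
            exact mul_le_mul_of_nonneg_left (l2 ω hω) h3
          · rw [res_of_not _ _ _ hEω, zero_mul]
            exact mul_nonneg h3 (by positivity)
      refine (Finset.sum_le_sum fun ω _ => h1 ω).trans (le_of_eq ?_)
      rw [Finset.sum_add_distrib, ← Finset.sum_mul, hmass, one_mul, ← Finset.mul_sum, ← Finset.sum_mul]
    have hp0k : 0 ≤ p0 k := mass_nn _ (res_nn _ _ (S.F k).nn)
    have l4 : m * Real.logb 2 (7 * (Ky k + 1) / S.dl r k) * p0 k ≤
        m * (Real.logb 2 (R k + 2) + r * (S.F k).n) * p0 k :=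
      mul_le_mul_of_nonneg_right (mul_le_mul_of_nonneg_left l1 (Nat.cast_nonneg m)) hp0k
    have hfin2 : fy k * (S.F k).n ≤ (f k + m * g0 k) * (S.F k).n := by
      have e1 : (f k + m * g0 k) * (S.F k).n = 1 + m * Real.logb 2 (B k + 2) +
          m * (Real.logb 2 (R k + 2) + r * (S.F k).n) * p0 k + m * (g0 k * (S.F k).n) := by
        rw [hf]
        beta_reduce
        field_simp
      rw [e1]
      have e2 : fy k * (S.F k).n ≤ Real.logb 2 (((0 : ℕ) : ℝ) + 2) + (∑ ω, res (S.F k).μ (E k) ω *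
        Real.logb 2 (θ ω / S.dl r k ^ m)) + m * Real.logb 2 (7 * (Ky k + 1) / S.dl r k) * p0 k := hfin
      have e3 : Real.logb 2 (((0 : ℕ) : ℝ) + 2) = 1 := by
        rw [Nat.cast_zero, zero_add, Real.logb_self_eq_one (by norm_num)]
      rw [e3] at e2
      linarith
    exact le_of_mul_le_mul_right hfin2 hn
  have h1 : ul fy ≤ ul (fun k => f k + m * g0 k) := ul_mono hUBy ((UB_of_tendsto hft).add (hg0U.const_mul _)) hkey
  rw [ul_add (UB_of_tendsto hft) (hg0U.const_mul _), ul_eq hft, ul_const_mul _ hg0U, zero_add] at h1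
  exact h1

end

end Pool.Agent.Helper62.PLK
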