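import Pool.Agent.Helper32.PLK.Def
import Pool.Agent.Helper62.PLK.Cmp
import Pool.Agent.Helper66.MT.Nq
import Pool.Agent.Helper14.MC.Fam
import Pool.Agent.Helper62.UR.Sw

/-! The row of `CMP` (Schur complement of a form of degree one in space) and the proof of `CMP`. -/

set_option autoImplicit false

namespace Pool.Agent.Helper62.PLK

open Finset Filter Topology Matrix Pool.Agent.Helper69.RK Pool.Agent.Helper31.EC
open Pool.Agent.Helper31.EC.Sp Pool.Agent.Helper40.EL Pool.Agent.Helper3.LF Pool.Agent.Helper89.LX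
open Pool.Agent.Helper32.PLK (PV ev zz rz sg lamR cf vl CMP)
open Pool.Agent.Helper66.MT (cs_form)
open Pool.Agent.Helper14.MC (mvar vv_mvar)

noncomputable section

variable {A : Matrix (Mon (2 + 1) 1) (Mon (2 + 1) 1) ℝ}

theorem ev_mvar (i j : Fin (2 + 1)) : ev i (mvar le_rfl j) = if j = i then 1 else 0 := by
  have h1 := congrFun (Helper59.GR.vv_one (N := 2 + 1) 0 (Pi.single i 1)) (mvar le_rfl j)
  rw [Pi.add_apply, vv_mvar, vv_mvar, Finset.sum_apply, Finset.sum_eq_single i] at h1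
  · rw [Pi.smul_apply, Pi.zero_apply, Pi.zero_apply, Pi.single_eq_same, sub_zero, one_smul, zero_add] at h1
    show dd i 0 (mvar le_rfl j) = _
    rw [← h1]
    by_cases h : j = i
    · rw [if_pos h, h, Pi.single_eq_same]
    · rw [if_neg h, Pi.single_eq_of_ne h]
  · intro b _ hb
    rw [Pi.smul_apply, Pi.single_eq_of_ne hb, Pi.zero_apply, sub_zero, zero_smul]
  · intro h
    exact absurd (Finset.mem_univ _) h

theorem sq_le_dot (x : Mon (2 + 1) 1 → ℝ) (a : Mon (2 + 1) 1) : x a ^ 2 ≤ x ⬝ᵥ x := by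
  unfold dotProduct
  rw [sq]
  exact Finset.single_le_sum (f := fun a => x a * x a) (fun b _ => mul_self_nonneg (x b)) (Finset.mem_univ a)

/-- the direction of `R` without `z` -/
def eR (A : Matrix (Mon (2 + 1) 1) (Mon (2 + 1) 1) ℝ) : Mon (2 + 1) 1 → ℝ := ev 1 - (rz A / zz A) • ev 2

theorem bil_symm (hs : A.IsSymm) (x y : Mon (2 + 1) 1 → ℝ) : x ⬝ᵥ (A *ᵥ y) = y ⬝ᵥ (A *ᵥ x) := by
  rw [Matrix.dotProduct_mulVec, ← Matrix.mulVec_transpose, hs.eq, dotProduct_comm]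

theorem one_le_zz (h1 : ∀ x, x ⬝ᵥ x ≤ qf A x) : 1 ≤ zz A := by
  have h2 := h1 (ev 2)
  have h3 := sq_le_dot (ev 2) (mvar le_rfl 2)
  rw [ev_mvar, if_pos rfl, one_pow] at h3
  exact h3.trans h2

theorem eR_ev2 (h1 : ∀ x, x ⬝ᵥ x ≤ qf A x) : eR A ⬝ᵥ (A *ᵥ ev 2) = 0 := by
  have h0 := one_le_zz h1
  unfold eR
  rw [sub_dotProduct, smul_dotProduct, smul_eq_mul]
  show rz A - rz A / zz A * zz A = 0
  rw [div_mul_cancel₀ _ (by linarith), sub_self]

theorem eR_ev1 (hs : A.IsSymm) : eR A ⬝ᵥ (A *ᵥ ev 1) = sg A := by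
  unfold eR
  rw [sub_dotProduct, smul_dotProduct, smul_eq_mul, bil_symm hs (ev 2) (ev 1)]
  show ev 1 ⬝ᵥ (A *ᵥ ev 1) - rz A / zz A * rz A = ev 1 ⬝ᵥ (A *ᵥ ev 1) - rz A ^ 2 / zz A
  ring

theorem qf_eR (hs : A.IsSymm) (h1 : ∀ x, x ⬝ᵥ x ≤ qf A x) : qf A (eR A) = sg A := by
  have e1 : qf A (eR A) = eR A ⬝ᵥ (A *ᵥ ev 1) - (rz A / zz A) * (eR A ⬝ᵥ (A *ᵥ ev 2)) := by
    have : eR A ⬝ᵥ (A *ᵥ eR A) = eR A ⬝ᵥ (A *ᵥ ev 1) - (rz A / zz A) * (eR A ⬝ᵥ (A *ᵥ ev 2)) := by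
      conv_lhs => rw [show (A *ᵥ eR A) = A *ᵥ ev 1 - (rz A / zz A) • (A *ᵥ ev 2) by
        unfold eR
        rw [Matrix.mulVec_sub, Matrix.mulVec_smul]]
      rw [dotProduct_sub, dotProduct_smul, smul_eq_mul]
    exact this
  rw [e1, eR_ev2 h1, mul_zero, sub_zero, eR_ev1 hs]

theorem one_le_sg (hs : A.IsSymm) (h1 : ∀ x, x ⬝ᵥ x ≤ qf A x) : 1 ≤ sg A := by
  rw [← qf_eR hs h1]
  have h3 := sq_le_dot (eR A) (mvar le_rfl 1)
  have h4 : eR A (mvar le_rfl 1) = 1 := by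
    unfold eR
    rw [Pi.sub_apply, Pi.smul_apply, ev_mvar, ev_mvar, if_pos rfl, if_neg (by decide), smul_zero, sub_zero]
  rw [h4, one_pow] at h3
  exact h3.trans (h1 _)

/-- coefficients of the row -/
def r0 (A : Matrix (Mon (2 + 1) 1) (Mon (2 + 1) 1) ℝ) : ℝ := -(eR A ⬝ᵥ (A *ᵥ vv 0)) / sg A

def r1 (A : Matrix (Mon (2 + 1) 1) (Mon (2 + 1) 1) ℝ) : ℝ := -(eR A ⬝ᵥ (A *ᵥ ev 0)) / sg A

theorem row_eq (hs : A.IsSymm) (h1 : ∀ x, x ⬝ᵥ x ≤ qf A x) (y : Fin (2 + 1) → ℝ) :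
    eR A ⬝ᵥ (A *ᵥ vv y) = sg A * (y 1 - r0 A - r1 A * y 0) := by
  have hg := one_le_sg hs h1
  have e1 : (vv y : Mon (2 + 1) 1 → ℝ) = vv 0 + (y 0 • ev 0 + (y 1 • ev 1 + y 2 • ev 2)) := by
    have h2 := Helper59.GR.vv_one (N := 2 + 1) 0 y
    rw [h2, Fin.sum_univ_three]
    simp only [Pi.zero_apply, sub_zero]
    rw [add_assoc]
    rfl
  rw [e1, Matrix.mulVec_add, Matrix.mulVec_add, Matrix.mulVec_add, Matrix.mulVec_smul, Matrix.mulVec_smul,
    Matrix.mulVec_smul, dotProduct_add, dotProduct_add, dotProduct_add, dotProduct_smul, dotProduct_smul,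
    dotProduct_smul, eR_ev2 h1, eR_ev1 hs]
  unfold r0 r1
  simp only [smul_eq_mul, mul_zero, add_zero]
  field_simp
  ring

theorem row_le (hs : A.IsSymm) (h1 : ∀ x, x ⬝ᵥ x ≤ qf A x) (y : Fin (2 + 1) → ℝ) :
    (Real.sqrt (sg A) * (y 1 - r0 A - r1 A * y 0)) ^ 2 ≤ qf A (vv y) := by
  have hg := one_le_sg hs h1
  have hp : Psd A := ⟨hs, fun x => (dot_self_nonneg x).trans (h1 x)⟩
  have h2 := cs_form hp (eR A) (vv y)
  rw [row_eq hs h1, qf_eR hs h1] at h2
  rw [mul_pow, Real.sq_sqrt (by linarith)]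
  have h3 : sg A * (sg A * (y 1 - r0 A - r1 A * y 0) ^ 2) ≤ sg A * qf A (vv y) := by
    calc _ = (sg A * (y 1 - r0 A - r1 A * y 0)) ^ 2 := by ring
      _ ≤ _ := h2
  exact le_of_mul_le_mul_left h3 (by linarith)

theorem r1_le (hs : A.IsSymm) (h1 : ∀ x, x ⬝ᵥ x ≤ qf A x) :
    (Real.sqrt (sg A) * |r1 A|) ^ 2 ≤ qf A (ev 0) := by
  have hg := one_le_sg hs h1
  have hp : Psd A := ⟨hs, fun x => (dot_self_nonneg x).trans (h1 x)⟩
  have h2 := cs_form hp (eR A) (ev 0)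
  rw [qf_eR hs h1] at h2
  have e1 : eR A ⬝ᵥ (A *ᵥ ev 0) = -(sg A * r1 A) := by
    unfold r1
    field_simp
  rw [e1] at h2
  rw [mul_pow, Real.sq_sqrt (by linarith), sq_abs]
  have h3 : sg A * (sg A * r1 A ^ 2) ≤ sg A * qf A (ev 0) := by
    calc _ = (-(sg A * r1 A)) ^ 2 := by ring
      _ ≤ _ := h2
  exact le_of_mul_le_mul_left h3 (by linarith)

theorem sg_le (h1 : ∀ x, x ⬝ᵥ x ≤ qf A x) : sg A ≤ qf A (ev 1) := by
  have h0 := one_le_zz h1
  unfold sg
  have : 0 ≤ rz A ^ 2 / zz A := by positivity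
  show ev 1 ⬝ᵥ (A *ᵥ ev 1) - rz A ^ 2 / zz A ≤ ev 1 ⬝ᵥ (A *ᵥ ev 1)
  linarith

/-- the form on the coordinate directions -/
theorem ev_le_phi (hp : ∀ x, 0 ≤ x ⬝ᵥ (A *ᵥ x)) (r : ℝ) (p : Fin (2 + 1) → ℝ) (i : Fin (2 + 1)) :
    r ^ 2 * qf A (ev i) ≤ 16 * phi r A p := by
  set j1 : Fin (2 + 1) → Fin (1 + 1) := fun k => if k = i then 1 else 0 with hj1
  have e1 : (vv (nodp 1 p r j1) : Mon (2 + 1) 1 → ℝ) - vv p = (r / 2) • ev i := by
    rw [Helper59.GR.vv_one p (nodp 1 p r j1), add_sub_cancel_left, Finset.sum_eq_single i]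
    · have : nodp 1 p r j1 i - p i = r / 2 := by
        unfold nodp nod
        rw [hj1]
        simp only [if_true]
        norm_num
        ring
      rw [this]
      rfl
    · intro b _ hb
      have : nodp 1 p r j1 b - p b = 0 := by
        unfold nodp nod
        rw [hj1]
        simp only [if_neg hb]
        norm_num
      rw [this, zero_smul]
    · intro h
      exact absurd (Finset.mem_univ _) h
  have h1 := Helper59.GR.qf_sub_le hp (vv (nodp 1 p r j1)) (vv p)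
  have h2 : qf A (vv (nodp 1 p r j1)) ≤ phi r A p :=
    Finset.single_le_sum (f := fun j : Fin (2 + 1) → Fin (1 + 1) => vv (nodp 1 p r j) ⬝ᵥ (A *ᵥ vv (nodp 1 p r j)))
      (fun _ _ => hp _) (Finset.mem_univ j1)
  have h3 := Helper59.GR.qf_le_phi r hp p
  rw [e1] at h1
  have h4 : qf A ((r / 2) • ev i) = r ^ 2 / 4 * qf A (ev i) := by
    unfold qf
    rw [Matrix.mulVec_smul, dotProduct_smul, smul_dotProduct, smul_eq_mul, smul_eq_mul]
    ring
  rw [h4] at h1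
  linarith

theorem abs_le_of_sq {x K : ℝ} (hK : 0 ≤ K) (h : x ^ 2 ≤ 16 * K) : |x| ≤ 4 * (K + 1) := by
  rw [← sq_abs] at h
  have h0 := abs_nonneg x
  nlinarith

/-- CMP -/
theorem cmp : CMP := by
  intro S s W p V K C hPV E hE e' he0 he1
  set T := W.rest E with hT
  intro D q τ
  have htyp : Typ (S := T) (fun k w => phi (W.dl 1 k) (V k w) (ptf s k (p.π k w)) ≤ K k) :=
    Pool.Agent.Helper25.EC.typ_rest E hE hPV.typ
  have hsup : ∀ k w, (T.F k).μ w ≠ 0 → (W.F k).μ w ≠ 0 := fun k w hw => ((W.F k).rest_supp (E k) w hw).1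
  have hVb : Bdd (S := T) V := rest_VB E hPV.bd
  set c : TR T := TR.rest E (p.tr (TR.cor s.a 0)) with hc
  set x : TR T := TR.rest E (p.tr (TR.cor s.x 0)) with hx
  set t : TR T := TR.rest E (p.tr (TR.cor s.t 0)) with ht
  have hc' : QS.rest E hE (p.qs (cf s 0)) = QS.mk c := by
    show QS.rest E hE (p.qs (QS.mk (TR.cor s.a 0))) = QS.mk c
    rw [p.qs_mk, QS.rest_mk]
  have hx' : QS.rest E hE (p.qs (vl s 0)) = QS.mk x := by
    show QS.rest E hE (p.qs (QS.mk (TR.cor s.x 0))) = QS.mk x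
    rw [p.qs_mk, QS.rest_mk]
  have hV' : restL E hE (io V) = io (S := T) V := restL_io E hE hPV.bd
  rw [hc', hx', hV']
  have dgT : ∀ f : TR S, TR.dg (TR.rest E (p.tr f)) 1 = restL E hE (p.map (TR.dg f 1)) := by
    intro f
    rw [TR.rest_dg E hE, p.tr_dg]
  have hTt : h (TR.dg t 1) (io V ⊔ TR.dg c 1 ⊔ TR.dg x 1) = 1 := by
    have h1 : h (p.map (TR.dg (TR.cor s.t 0) 1)) (p.map (s.xi 1)) = 1 := by
      rw [p.h_map]
      have h2 : TR.dg (TR.cor s.t 0) 1 = s.T := by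
        apply le_antisymm
        · exact TR.cor_dg_le s.t 0 1
        · rw [show s.T = s.t.dg 1 from rfl, TR.vv_dg_le_iff]
          intro i
          rw [Subsingleton.elim i 0]
      rw [h2]
      exact s.hT_xi
    have h2 := Helper62.UR.full_rest p E hE (f := QS.mk (TR.cor s.t 0)) (X := s.xi 1) (r := 0) zero_le_one
      (by rw [QS.dg_nonpos _ le_rfl]; exact bot_le) (by
        rw [QS.dg_mk _ le_rfl, sub_zero]
        rw [p.h_map] at h1
        exact h1.ge)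
    rw [QS.dg_mk _ le_rfl, sub_zero] at h2
    apply le_antisymm
    · refine (h_le_H _ _).trans ?_
      rw [← QS.dg_mk t le_rfl]
      exact QS.H_dg_le _ zero_le_one
    · refine h2.ge.trans ?_
      rw [ht, dgT]
      apply h_anti
      refine sup_le (sup_le ?_ ?_) ?_
      · rw [← hV']
        exact restL_mono E hE hPV.leL
      · rw [hc, dgT]
        exact restL_mono E hE (p.map_mono ((TR.cor_dg_le s.a 0 1).trans le_sup_left))
      · rw [hx, dgT]
        exact restL_mono E hE (p.map_mono ((TR.cor_dg_le s.x 0 1).trans le_sup_right))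
  have hKT : T.Sub K := hPV.sub
  have hcpd : ∀ᶠ k in UF, ∀ w, (T.F k).μ w ≠ 0 → Cpd (2 ^ (C * (W.F k).n)) (V k w) := by
    filter_upwards [hPV.cpd] with k hk w hw
    exact hk w (hsup k w hw)
  have key := cmp_row t c x V hVb hTt (fun k A => Real.sqrt (sg A)) (fun k A => r0 A) (fun k A => r1 A)
    (fun k => 4 * (K k + 1)) ((T.Sub_const (by norm_num)).mul (hKT.add (T.Sub_const zero_le_one)))
    (by
      filter_upwards [hcpd] with k hk w hw
      obtain ⟨a1, a2, _⟩ := hk w hw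
      exact Real.one_le_sqrt.mpr (one_le_sg a1 a2))
    (htyp.mono (by
      filter_upwards [hcpd, hKT.1] with k hk hK0 w hw hphi
      obtain ⟨a1, a2, _⟩ := hk w hw
      have hp : ∀ x, 0 ≤ x ⬝ᵥ (V k w *ᵥ x) := fun x => (dot_self_nonneg x).trans (a2 x)
      have hδ := W.dl_pos 1 k
      have hg := one_le_sg a1 a2
      have b0 := ev_le_phi hp (W.dl 1 k) (ptf s k (p.π k w)) 0
      have b1 := ev_le_phi hp (W.dl 1 k) (ptf s k (p.π k w)) 1
      have b2 := row_le a1 a2 (ptf s k (p.π k w))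
      have b3 := Helper59.GR.qf_le_phi (W.dl 1 k) hp (ptf s k (p.π k w))
      have b4 := r1_le a1 a2
      have b5 := sg_le a2
      have hdl : T.dl 1 k = W.dl 1 k := rfl
      have hs0 := Real.sqrt_nonneg (sg (V k w))
      refine ⟨?_, ?_, ?_⟩
      · have c1 := abs_le_of_sq (x := Real.sqrt (sg (V k w)) * T.dl 1 k) hK0 (by
          rw [mul_pow, Real.sq_sqrt (by linarith), hdl]
          nlinarith [sq_nonneg (W.dl 1 k)])
        exact (le_abs_self _).trans c1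
      · have c1 := abs_le_of_sq (x := Real.sqrt (sg (V k w)) * |r1 (V k w)| * T.dl 1 k) hK0 (by
          rw [mul_pow, hdl]
          nlinarith [sq_nonneg (W.dl 1 k)])
        exact (le_abs_self _).trans c1
      · have c1 := abs_le_of_sq (x := Real.sqrt (sg (V k w)) * (ptf s k (p.π k w) 1 - r0 (V k w) -
          r1 (V k w) * ptf s k (p.π k w) 0)) hK0 (by nlinarith)
        exact c1))
    e' he0 he1 D q τ
  refine key.trans (le_of_eq (ul_congr ?_))
  filter_upwards [hcpd] with k hk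
  refine Finset.sum_congr rfl fun w _ => ?_
  by_cases hw : (T.F k).μ w = 0
  · rw [hw, zero_mul, zero_mul]
  · obtain ⟨a1, a2, _⟩ := hk w hw
    have hg := one_le_sg a1 a2
    have e1 : Real.logb 2 (Real.sqrt (sg (V k w))) / (T.F k).n = lamR (V k w) (W.F k).n := by
      unfold lamR
      have hn : (T.F k).n = (W.F k).n := rfl
      rw [hn]
      have e2 : Real.logb 2 (Real.sqrt (sg (V k w))) = Real.logb 2 (sg (V k w)) / 2 := by
        unfold Real.logb
        rw [Real.log_sqrt (by linarith)]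
        ring
      rw [e2]
      ring
    rw [e1]

end

end Pool.Agent.Helper62.PLK
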